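import Pool.Agent.Helper57.QZ.Stmts

/-!
# Row SM1 of the quantile sheet: the sums giving the variances and the mean of the defect
-/

set_option autoImplicit false

namespace Pool.Agent.Helper57.QZ

open Set

namespace S34

/-- one step of the telescoping sum -/
theorem step (ε : ℝ) (hε : 0 < ε) (n : ℕ) (hn : 1 ≤ n) :
    ε * ((n + 1 : ℕ) : ℝ) ^ (-1 - ε) ≤ (n : ℝ) ^ (-ε) - ((n + 1 : ℕ) : ℝ) ^ (-ε) := by
  have hn0 : (0 : ℝ) < n := by exact_mod_cast hn
  have hm0 : (0 : ℝ) < ((n + 1 : ℕ) : ℝ) := by positivity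
  obtain ⟨m, hm⟩ : ∃ m : ℝ, m = ((n + 1 : ℕ) : ℝ) := ⟨_, rfl⟩
  have hnm : (n : ℝ) = m - 1 := by
    rw [hm]
    push_cast
    ring
  rw [← hm] at hm0 ⊢
  have h1 : (n : ℝ) ^ (-ε) = m ^ (-ε) * ((n : ℝ) / m) ^ (-ε) := by
    rw [← Real.mul_rpow hm0.le (by positivity)]
    congr 1
    field_simp
  have h2 : 1 + ε / m ≤ ((n : ℝ) / m) ^ (-ε) := by
    rw [Real.rpow_def_of_pos (by positivity)]
    have h3 : Real.log ((n : ℝ) / m) ≤ (n : ℝ) / m - 1 :=
      Real.log_le_sub_one_of_pos (by positivity)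
    have h4 : (n : ℝ) / m - 1 = -(1 / m) := by
      rw [hnm]
      field_simp
      ring
    have h5 := Real.add_one_le_exp (Real.log ((n : ℝ) / m) * -ε)
    have h6 : ε / m ≤ Real.log ((n : ℝ) / m) * -ε := by
      rw [h4] at h3
      have h7 : ε / m = (1 / m) * ε := by ring
      nlinarith
    linarith
  have h6 : m ^ (-1 - ε) = m ^ (-ε) / m := by
    rw [show -1 - ε = -ε - 1 by ring, Real.rpow_sub_one hm0.ne']
  rw [h1, h6]
  have h7 : 0 < m ^ (-ε) := Real.rpow_pos_of_pos hm0 _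
  have h8 : m ^ (-ε) * (1 + ε / m) ≤ m ^ (-ε) * ((n : ℝ) / m) ^ (-ε) :=
    mul_le_mul_of_nonneg_left h2 h7.le
  have h9 : m ^ (-ε) * (1 + ε / m) = m ^ (-ε) + ε * (m ^ (-ε) / m) := by
    field_simp
  linarith

/-- the tail of the zeta series -/
theorem tail (ε : ℝ) (hε : 0 < ε) (a b : ℕ) (ha : 1 ≤ a) :
    ∑ n ∈ Finset.Ioc a b, (n : ℝ) ^ (-1 - ε) ≤ (1 / ε) * (a : ℝ) ^ (-ε) := by
  have h1 : ∀ k : ℕ, ε * ∑ n ∈ Finset.Ioc a (a + k), (n : ℝ) ^ (-1 - ε) ≤
      (a : ℝ) ^ (-ε) - ((a + k : ℕ) : ℝ) ^ (-ε) := by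
    intro k
    induction k with
    | zero => simp
    | succ k ih =>
      rw [← Nat.add_assoc, Finset.sum_Ioc_succ_top (Nat.le_add_right a k), mul_add]
      have h2 := step ε hε (a + k) (by omega)
      linarith
  rcases le_total b a with h | h
  · rw [Finset.Ioc_eq_empty (by omega), Finset.sum_empty]
    positivity
  · have h2 := h1 (b - a)
    rw [Nat.add_sub_cancel' h] at h2
    have h3 : (0 : ℝ) ≤ (b : ℝ) ^ (-ε) := by positivity
    rw [one_div, ← div_eq_inv_mul, le_div_iff₀ hε]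
    linarith

/-- the tail from `z` on -/
theorem tailz (ε : ℝ) (hε : 0 < ε) (hε1 : ε < 1) (z : ℝ) (hz : 2 ≤ z) (b : ℕ) :
    ∑ n ∈ Finset.Ioc ⌊z⌋₊ b, (n : ℝ) ^ (-1 - ε) ≤ (2 / ε) * z ^ (-ε) := by
  have h0 : 1 ≤ ⌊z⌋₊ := Nat.le_floor (by push_cast; linarith)
  have h1 := tail ε hε ⌊z⌋₊ b h0
  refine h1.trans ?_
  have h2 : z / 2 ≤ (⌊z⌋₊ : ℝ) := by
    have := Nat.lt_floor_add_one z
    linarith
  have h3 : ((⌊z⌋₊ : ℕ) : ℝ) ^ (-ε) ≤ (z / 2) ^ (-ε) :=
    Real.rpow_le_rpow_of_nonpos (by positivity) h2 (by linarith)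
  have h4 : (z / 2) ^ (-ε) ≤ 2 * z ^ (-ε) := by
    rw [Real.div_rpow (by positivity) (by norm_num), div_eq_mul_inv, mul_comm]
    refine mul_le_mul_of_nonneg_right ?_ (by positivity)
    rw [Real.rpow_neg (by norm_num), inv_inv]
    calc (2 : ℝ) ^ ε ≤ 2 ^ (1 : ℝ) := Real.rpow_le_rpow_of_exponent_le (by norm_num) hε1.le
      _ = 2 := Real.rpow_one 2
  calc (1 / ε) * ((⌊z⌋₊ : ℕ) : ℝ) ^ (-ε) ≤ (1 / ε) * (2 * z ^ (-ε)) :=
        mul_le_mul_of_nonneg_left (h3.trans h4) (by positivity)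
    _ = (2 / ε) * z ^ (-ε) := by ring

/-- from the primes up to `y` to the two ranges -/
theorem split (y : ℕ) (z : ℝ) (hz : 2 ≤ z) (f g h : ℕ → ℝ)
    (h1 : ∀ n : ℕ, 1 ≤ n → (n : ℝ) ≤ z → f n ≤ g n)
    (h2 : ∀ n : ℕ, 1 ≤ n → z < (n : ℝ) → f n ≤ h n)
    (hg : ∀ n, 0 ≤ g n) (hh : ∀ n, 0 ≤ h n) :
    ∑ p : Pr y, f p ≤ ∑ n ∈ Finset.Icc 1 ⌊z⌋₊, g n + ∑ n ∈ Finset.Ioc ⌊z⌋₊ y, h n := by
  have e : ∑ p : Pr y, f p = ∑ p ∈ Nat.primesBelow (y + 1), f p :=
    Finset.sum_coe_sort (Nat.primesBelow (y + 1)) f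
  rw [e, ← Finset.sum_filter_add_sum_filter_not (Nat.primesBelow (y + 1))
    (fun p : ℕ => (p : ℝ) ≤ z)]
  have hz0 : (0 : ℝ) ≤ z := by linarith
  refine add_le_add ?_ ?_
  · refine (Finset.sum_le_sum (g := g) ?_).trans
      (Finset.sum_le_sum_of_subset_of_nonneg ?_ fun i _ _ => hg i)
    · intro p hp
      rw [Finset.mem_filter] at hp
      exact h1 p (Nat.prime_of_mem_primesBelow hp.1).one_lt.le hp.2
    · intro p hp
      rw [Finset.mem_filter] at hp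
      rw [Finset.mem_Icc]
      exact ⟨(Nat.prime_of_mem_primesBelow hp.1).one_lt.le, Nat.le_floor hp.2⟩
  · refine (Finset.sum_le_sum (g := h) ?_).trans
      (Finset.sum_le_sum_of_subset_of_nonneg ?_ fun i _ _ => hh i)
    · intro p hp
      rw [Finset.mem_filter] at hp
      exact h2 p (Nat.prime_of_mem_primesBelow hp.1).one_lt.le (not_le.1 hp.2)
    · intro p hp
      rw [Finset.mem_filter] at hp
      rw [Finset.mem_Ioc]
      refine ⟨(Nat.floor_lt hz0).2 (not_le.1 hp.2), ?_⟩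
      have := Nat.lt_of_mem_primesBelow hp.1
      omega

theorem log_sq (ε : ℝ) (hε : 0 < ε) (u : ℝ) (hu : 1 ≤ u) :
    (1 + Real.log u) ^ 2 ≤ (1 + 2 / ε) ^ 2 * u ^ ε := by
  have h1 : Real.log u ≤ u ^ (ε / 2) / (ε / 2) := Real.log_le_rpow_div (by linarith) (by linarith)
  have h2 : 1 ≤ u ^ (ε / 2) := Real.one_le_rpow hu (by linarith)
  have h3 : 0 ≤ Real.log u := Real.log_nonneg hu
  have h4 : 1 + Real.log u ≤ (1 + 2 / ε) * u ^ (ε / 2) := by
    have : u ^ (ε / 2) / (ε / 2) = 2 / ε * u ^ (ε / 2) := by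
      field_simp
    rw [this] at h1
    linarith
  have h5 : u ^ ε = (u ^ (ε / 2)) ^ 2 := by
    rw [← Real.rpow_natCast, ← Real.rpow_mul (by linarith)]
    congr 1
    push_cast
    ring
  rw [h5, ← mul_pow]
  exact pow_le_pow_left₀ (by linarith) h4 2

end S34

open S34 in
theorem st_sm1 : ST_SM1 := by
  intro ε hε
  have hε0 : 0 < ε := hε.1
  have hε1 : ε < 1 / 2 := hε.2
  obtain ⟨D, hD⟩ : ∃ D, D = (1 + 2 / ε) ^ 2 := ⟨_, rfl⟩
  obtain ⟨E, hE⟩ : ∃ E, E = 2 / ε := ⟨_, rfl⟩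
  have hE0 : 0 < E := by rw [hE]; positivity
  have hD1 : 1 ≤ D := by
    rw [hD, ← hE]
    nlinarith
  refine ⟨9 * (5 + D * E), fun y σ z hσ hz => ?_⟩
  obtain ⟨L, hL⟩ : ∃ L, L = 1 + Real.log z := ⟨_, rfl⟩
  have hlz : 0 < Real.log z := Real.log_pos (by linarith)
  have hl2 : (0.69 : ℝ) ≤ Real.log z := by
    have h1 := Real.log_two_gt_d9
    have h2 := Real.log_le_log (by norm_num) hz
    linarith
  have hL1 : 1 ≤ L := by rw [hL]; linarith
  have hL3 : L ^ 2 ≤ 9 * Real.log z ^ 2 := by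
    have : L ≤ 3 * Real.log z := by rw [hL]; linarith
    nlinarith
  have hz0 : 0 < z := by linarith
  have hz1 : 1 ≤ z := by linarith
  obtain ⟨Z, hZ⟩ : ∃ Z, Z = z ^ (-(2 * ε)) := ⟨_, rfl⟩
  have hZ0 : 0 < Z := by rw [hZ]; exact Real.rpow_pos_of_pos hz0 _
  have hzz : z ^ (-ε) * z ^ (-ε) = Z := by
    rw [hZ, ← Real.rpow_add hz0]
    congr 1
    ring
  have hfl : ((⌊z⌋₊ : ℕ) : ℝ) ≤ z := Nat.floor_le hz0.le
  -- `n > z`
  have hbig : ∀ n : ℕ, 1 ≤ n → z < (n : ℝ) → aa σ n ^ 2 ≤ (n : ℝ) ^ (-1 - 2 * ε) := by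
    intro n hn _
    have hn1 : (1 : ℝ) ≤ n := by exact_mod_cast hn
    unfold aa
    rw [← Real.rpow_natCast, ← Real.rpow_mul (by linarith)]
    refine Real.rpow_le_rpow_of_exponent_le hn1 ?_
    push_cast
    have := hσ.1
    linarith
  have hsplit : ∀ n : ℕ, 1 ≤ n → (n : ℝ) ^ (-1 - 2 * ε) = (n : ℝ) ^ (-ε) * (n : ℝ) ^ (-1 - ε) := by
    intro n hn
    have hn1 : (0 : ℝ) < n := by exact_mod_cast hn
    rw [← Real.rpow_add hn1]
    congr 1
    ring
  have htail := tailz ε hε0 (by linarith) z hz y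
  have haa : ∀ n : ℕ, 1 ≤ n → 0 < aa σ n := by
    intro n hn
    have hn1 : (0 : ℝ) < n := by exact_mod_cast hn
    exact Real.rpow_pos_of_pos hn1 _
  have hzs : 0 < z ^ σ := Real.rpow_pos_of_pos hz0 _
  constructor
  · have h1 := split y z hz (fun n => aa σ n ^ 2 * (1 + Real.log n) ^ 2 *
      min 1 (5 / (z ^ σ * aa σ n) ^ 2)) (fun _ => 5 * (z⁻¹ * Z) * L ^ 2)
      (fun n => D * L ^ 2 * z ^ (-ε) * (n : ℝ) ^ (-1 - ε)) ?_ ?_ (fun n => by positivity)
      (fun n => by positivity)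
    · refine h1.trans ?_
      have hA : ∑ _n ∈ Finset.Icc 1 ⌊z⌋₊, 5 * (z⁻¹ * Z) * L ^ 2 =
          ((⌊z⌋₊ + 1 - 1 : ℕ) : ℝ) * (5 * (z⁻¹ * Z) * L ^ 2) := by
        rw [Finset.sum_const, Nat.card_Icc, nsmul_eq_mul]
      have hB : ∑ n ∈ Finset.Ioc ⌊z⌋₊ y, D * L ^ 2 * z ^ (-ε) * (n : ℝ) ^ (-1 - ε) =
          D * L ^ 2 * z ^ (-ε) * ∑ n ∈ Finset.Ioc ⌊z⌋₊ y, (n : ℝ) ^ (-1 - ε) := by
        rw [Finset.mul_sum]
      rw [hA, hB]
      have h2 : ((⌊z⌋₊ + 1 - 1 : ℕ) : ℝ) * (5 * (z⁻¹ * Z) * L ^ 2) ≤ 5 * Z * L ^ 2 := by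
        rw [Nat.add_sub_cancel]
        have : z * (5 * (z⁻¹ * Z) * L ^ 2) = 5 * Z * L ^ 2 := by
          field_simp
        rw [← this]
        exact mul_le_mul_of_nonneg_right hfl (by positivity)
      have h3 : D * L ^ 2 * z ^ (-ε) * ∑ n ∈ Finset.Ioc ⌊z⌋₊ y, (n : ℝ) ^ (-1 - ε) ≤
          D * L ^ 2 * z ^ (-ε) * (E * z ^ (-ε)) := by
        rw [hE]
        exact mul_le_mul_of_nonneg_left htail (by positivity)
      have h4 : D * L ^ 2 * z ^ (-ε) * (E * z ^ (-ε)) = D * E * Z * L ^ 2 := by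
        rw [← hzz]
        ring
      have h5 : (5 + D * E) * Z * L ^ 2 ≤ (5 + D * E) * Z * (9 * Real.log z ^ 2) :=
        mul_le_mul_of_nonneg_left hL3 (by positivity)
      rw [← hZ]
      linarith
    · intro n hn hnz
      have hn1 : (1 : ℝ) ≤ n := by exact_mod_cast hn
      have ha := haa n hn
      have e1 : aa σ n ^ 2 * (1 + Real.log n) ^ 2 * min 1 (5 / (z ^ σ * aa σ n) ^ 2) ≤
          aa σ n ^ 2 * (1 + Real.log n) ^ 2 * (5 / (z ^ σ * aa σ n) ^ 2) :=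
        mul_le_mul_of_nonneg_left (min_le_right _ _) (by positivity)
      have e2 : aa σ n ^ 2 * (1 + Real.log n) ^ 2 * (5 / (z ^ σ * aa σ n) ^ 2) =
          5 * ((z ^ σ) ^ 2)⁻¹ * (1 + Real.log n) ^ 2 := by
        field_simp
      have e3 : ((z ^ σ) ^ 2)⁻¹ ≤ z⁻¹ * Z := by
        rw [hZ, ← Real.rpow_natCast, ← Real.rpow_mul hz0.le, ← Real.rpow_neg hz0.le,
          ← Real.rpow_neg_one z, ← Real.rpow_add hz0]
        refine Real.rpow_le_rpow_of_exponent_le hz1 ?_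
        push_cast
        have := hσ.1
        linarith
      have e4 : (1 + Real.log n) ^ 2 ≤ L ^ 2 := by
        have h3 := Real.log_le_log (by linarith) hnz
        have h4 := Real.log_nonneg hn1
        rw [hL]
        exact pow_le_pow_left₀ (by linarith) (by linarith) 2
      refine e1.trans (e2.le.trans ?_)
      exact mul_le_mul (mul_le_mul_of_nonneg_left e3 (by norm_num)) e4 (by positivity)
        (by positivity)
    · intro n hn hnz
      have hn0 : (0 : ℝ) < n := by exact_mod_cast hn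
      have hn1 : (1 : ℝ) ≤ n := by exact_mod_cast hn
      have ha := haa n hn
      have hu : 1 ≤ (n : ℝ) / z := by rw [le_div_iff₀ hz0]; linarith
      have e1 : aa σ n ^ 2 * (1 + Real.log n) ^ 2 * min 1 (5 / (z ^ σ * aa σ n) ^ 2) ≤
          aa σ n ^ 2 * (1 + Real.log n) ^ 2 := by
        refine mul_le_of_le_one_right (by positivity) (min_le_left _ _)
      have e2 : Real.log n = Real.log z + Real.log ((n : ℝ) / z) := by
        rw [Real.log_div hn0.ne' hz0.ne']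
        ring
      have e3 := Real.log_nonneg hu
      have e4 : 1 + Real.log n ≤ L * (1 + Real.log ((n : ℝ) / z)) := by
        rw [e2, hL]
        nlinarith
      have e5 : (1 + Real.log n) ^ 2 ≤ L ^ 2 * (D * ((n : ℝ) / z) ^ ε) := by
        have h4 := Real.log_nonneg hn1
        calc (1 + Real.log n) ^ 2 ≤ (L * (1 + Real.log ((n : ℝ) / z))) ^ 2 :=
              pow_le_pow_left₀ (by linarith) e4 2
          _ = L ^ 2 * (1 + Real.log ((n : ℝ) / z)) ^ 2 := by ring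
          _ ≤ L ^ 2 * (D * ((n : ℝ) / z) ^ ε) := by
              rw [hD]
              exact mul_le_mul_of_nonneg_left (log_sq ε hε0 _ hu) (by positivity)
      have e6 := hbig n hn hnz
      have e7 : (n : ℝ) ^ (-1 - 2 * ε) * (L ^ 2 * (D * ((n : ℝ) / z) ^ ε)) =
          D * L ^ 2 * z ^ (-ε) * (n : ℝ) ^ (-1 - ε) := by
        rw [hsplit n hn, Real.div_rpow hn0.le hz0.le, Real.rpow_neg hz0.le, Real.rpow_neg hn0.le]
        have h8 : (n : ℝ) ^ ε ≠ 0 := (Real.rpow_pos_of_pos hn0 _).ne'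
        have h9 : z ^ ε ≠ 0 := (Real.rpow_pos_of_pos hz0 _).ne'
        field_simp
      refine e1.trans (le_trans ?_ e7.le)
      exact mul_le_mul e6 e5 (by positivity) (by positivity)
  · have h1 := split y z hz (fun n => aa σ n ^ 2 * min 1 (2 / (z ^ σ * aa σ n)))
      (fun n => 2 * Z * (1 / (n : ℝ))) (fun n => z ^ (-ε) * (n : ℝ) ^ (-1 - ε)) ?_ ?_
      (fun n => by positivity) (fun n => by positivity)
    · refine h1.trans ?_
      rw [← Finset.mul_sum, ← Finset.mul_sum]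
      have h2 : ∑ n ∈ Finset.Icc 1 ⌊z⌋₊, 1 / (n : ℝ) ≤ L := by
        have h3 := harmonic_le_one_add_log ⌊z⌋₊
        rw [harmonic_eq_sum_Icc] at h3
        push_cast at h3
        have h4 : Real.log ((⌊z⌋₊ : ℕ) : ℝ) ≤ Real.log z := by
          refine Real.log_le_log ?_ hfl
          have : 1 ≤ ⌊z⌋₊ := Nat.le_floor (by push_cast; linarith)
          exact_mod_cast this
        have h5 : ∑ n ∈ Finset.Icc 1 ⌊z⌋₊, 1 / (n : ℝ) = ∑ n ∈ Finset.Icc 1 ⌊z⌋₊, ((n : ℝ))⁻¹ :=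
          Finset.sum_congr rfl fun n _ => one_div _
        rw [h5, hL]
        linarith
      have h6 : 2 * Z * ∑ n ∈ Finset.Icc 1 ⌊z⌋₊, 1 / (n : ℝ) ≤ 2 * Z * L :=
        mul_le_mul_of_nonneg_left h2 (by positivity)
      have h7 : z ^ (-ε) * ∑ n ∈ Finset.Ioc ⌊z⌋₊ y, (n : ℝ) ^ (-1 - ε) ≤
          z ^ (-ε) * (E * z ^ (-ε)) := by
        rw [hE]
        exact mul_le_mul_of_nonneg_left htail (by positivity)
      have h8 : z ^ (-ε) * (E * z ^ (-ε)) = E * Z := by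
        rw [← hzz]
        ring
      have h9 : 2 * Z * L ≤ 5 * Z * L ^ 2 := by
        have h10 : L ≤ L ^ 2 := by nlinarith
        have h11 : 2 * Z * L ≤ 2 * Z * L ^ 2 := mul_le_mul_of_nonneg_left h10 (by positivity)
        have h12 : 0 ≤ Z * L ^ 2 := by positivity
        linarith
      have h10 : E * Z ≤ D * E * Z * L ^ 2 := by
        have h11 : 1 ≤ D * L ^ 2 := by nlinarith
        have h12 : E * Z * 1 ≤ E * Z * (D * L ^ 2) := mul_le_mul_of_nonneg_left h11 (by positivity)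
        linarith
      have h5 : (5 + D * E) * Z * L ^ 2 ≤ (5 + D * E) * Z * (9 * Real.log z ^ 2) :=
        mul_le_mul_of_nonneg_left hL3 (by positivity)
      rw [← hZ]
      linarith
    · intro n hn hnz
      have hn0 : (0 : ℝ) < n := by exact_mod_cast hn
      have ha := haa n hn
      have e1 : aa σ n ^ 2 * min 1 (2 / (z ^ σ * aa σ n)) ≤
          aa σ n ^ 2 * (2 / (z ^ σ * aa σ n)) :=
        mul_le_mul_of_nonneg_left (min_le_right _ _) (by positivity)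
      have e2 : aa σ n ^ 2 * (2 / (z ^ σ * aa σ n)) = 2 * (z ^ σ)⁻¹ * aa σ n := by
        field_simp
      have e3 : aa σ n ≤ z ^ (1 - σ) * (1 / (n : ℝ)) := by
        unfold aa
        have h1 : (n : ℝ) ^ (-σ) = (n : ℝ) ^ (1 - σ) * (1 / (n : ℝ)) := by
          rw [one_div, ← Real.rpow_neg_one (n : ℝ), ← Real.rpow_add hn0]
          congr 1
          ring
        rw [h1]
        refine mul_le_mul_of_nonneg_right ?_ (by positivity)
        exact Real.rpow_le_rpow hn0.le hnz (by linarith [hσ.2])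
      have e4 : (z ^ σ)⁻¹ * z ^ (1 - σ) ≤ Z := by
        rw [hZ, ← Real.rpow_neg hz0.le, ← Real.rpow_add hz0]
        refine Real.rpow_le_rpow_of_exponent_le hz1 ?_
        have := hσ.1
        linarith
      refine e1.trans (e2.le.trans ?_)
      calc 2 * (z ^ σ)⁻¹ * aa σ n ≤ 2 * (z ^ σ)⁻¹ * (z ^ (1 - σ) * (1 / (n : ℝ))) :=
            mul_le_mul_of_nonneg_left e3 (by positivity)
        _ = 2 * ((z ^ σ)⁻¹ * z ^ (1 - σ)) * (1 / (n : ℝ)) := by ring
        _ ≤ 2 * Z * (1 / (n : ℝ)) := by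
            refine mul_le_mul_of_nonneg_right ?_ (by positivity)
            linarith
    · intro n hn hnz
      have hn0 : (0 : ℝ) < n := by exact_mod_cast hn
      have ha := haa n hn
      have e1 : aa σ n ^ 2 * min 1 (2 / (z ^ σ * aa σ n)) ≤ aa σ n ^ 2 :=
        mul_le_of_le_one_right (by positivity) (min_le_left _ _)
      refine e1.trans ((hbig n hn hnz).trans ?_)
      rw [hsplit n hn]
      refine mul_le_mul_of_nonneg_right ?_ (by positivity)
      exact Real.rpow_le_rpow_of_nonpos hz0 hnz.le (by linarith)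

end Pool.Agent.Helper57.QZ
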